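import Pool.Agent.Helper16.HF.Gap

/-!
# HF/Basic: windows

`window`: let `a t = N` with `t ≥ 3` (`N ≥ 3`; for `t ≤ 2` one has `a t ≤ 2`).  By `h.2.2 t` `N = ∑ k ∈ Icc i j, a k`
with `1 ≤ i < j`.  Put `u = a i < v = a j`.  The image of `Icc i j` under `a` (injective) is exactly `Icc u v \ miss a u v`
(an element `x` of `Icc u v` which is not missing is `a l`, and `i ≤ l ≤ j` by `index_le`).  See the proof of `gap` in HF/Gap for
the same computation (`himg`, `hinj`, `hsum2`).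
`gauss2`: closed form of `∑ t ∈ Icc u v, t` (induction, or the lemma `gauss` inside `gap`).
`sum_not_miss`: `N` is the sum of the elements of `Icc u v` that are not missing.
`add_le`: `u` and `v` are two different such elements.  `mul_le`: every such element is `≥ u`.
`half`: the numbers `t ∈ [u, v]` with `v ≤ 2 t` are at least `(v + 1) / 2` many (real division; they are `⌈v/2⌉, …, v`), so at least
`v / 4` of them are not missing, each is `≥ v / 2`.
-/

set_option autoImplicit false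

namespace Pool.Agent.Helper16.HF

open Finset

theorem gauss2 (u v : ℕ) (huv : u ≤ v + 1) : 2 * ∑ t ∈ Icc u v, t = (v + 1 - u) * (u + v) := by
  sorry

theorem window {a : ℕ → ℕ} (h : IsHof a) {N : ℕ} (hN : 3 ≤ N) (hA : ¬ Missing a N) :
    ∃ u v : ℕ, 1 ≤ u ∧ u < v ∧ ¬ Missing a u ∧ ¬ Missing a v ∧
      N + ∑ t ∈ miss a u v, t = ∑ t ∈ Icc u v, t := by
  sorry

open Classical in
theorem sum_not_miss {a : ℕ → ℕ} {N u v : ℕ} (h : N + ∑ t ∈ miss a u v, t = ∑ t ∈ Icc u v, t) :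
    N = ∑ t ∈ (Icc u v).filter (fun t => ¬ Missing a t), t := by
  sorry

theorem add_le {a : ℕ → ℕ} {N u v : ℕ} (huv : u < v) (hu : ¬ Missing a u) (hv : ¬ Missing a v)
    (h : N + ∑ t ∈ miss a u v, t = ∑ t ∈ Icc u v, t) : u + v ≤ N := by
  sorry

theorem mul_le {a : ℕ → ℕ} {N u v : ℕ} (h : N + ∑ t ∈ miss a u v, t = ∑ t ∈ Icc u v, t) :
    u * (v + 1 - u) ≤ N + u * #(miss a u v) := by
  sorry

theorem half {a : ℕ → ℕ} {N u v : ℕ} (huv : 2 * u ≤ v) (hm : 4 * #(miss a u v) ≤ v)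
    (h : N + ∑ t ∈ miss a u v, t = ∑ t ∈ Icc u v, t) : v * v ≤ 8 * N := by
  sorry

end Pool.Agent.Helper16.HF
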