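import Pool.Agent.Helper16.HF.Landreau

/-!
# HF/OddDiv: odd divisors of the terms of a short arithmetic progression with difference `2^k`

Let `n_s = |c + 2^k s|`; it is not `0` (`0 < c < 2^k`) and `n_s ≤ 2^k (S + 1) ≤ Y^3`.  Let `n'_s` be its odd part
(`ordCompl[2] n_s`, or `n_s = 2^e * n'` with `n'` odd).  The odd divisors of `n_s` are the divisors of `n'_s`, so by `landreau` their number is
at most `4 ∑ τ(d)^3` over the divisors `d ≤ Y` of `n'_s`, these `d` are odd divisors `≤ Y` of `n_s`.  Exchange the sums: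
for odd `d ≥ 1` the number of `s ∈ [-S, S]` with `d ∣ c + 2^k s` is at most `(2 S + 1) / d + 1` (`count_ap`: two such `s`
are congruent mod `d`; `2^k` is prime to `d`).
-/

set_option autoImplicit false

namespace Pool.Agent.Helper16.HF

open Finset

theorem count_ap (k c S d : ℕ) (hd : Odd d) :
    #{s ∈ Icc (-(S : ℤ)) S | (d : ℤ) ∣ (c : ℤ) + 2 ^ k * s} ≤ (2 * S + 1) / d + 1 := by
  sorry

theorem odd_landreau (n Y : ℕ) (hn : 0 < n) (h : n ≤ Y ^ 3) :
    #{d ∈ n.divisors | Odd d} ≤ 4 * ∑ d ∈ Icc 1 Y with Odd d ∧ d ∣ n, #d.divisors ^ 3 := by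
  sorry

theorem sum_odd_div (k c S Y : ℕ) (hc : 0 < c) (hcq : c < 2 ^ k) (hY : 2 ^ k * (S + 1) ≤ Y ^ 3) :
    ∑ s ∈ Icc (-(S : ℤ)) S, #{d ∈ (((c : ℤ) + 2 ^ k * s).natAbs).divisors | Odd d} ≤
      4 * ∑ d ∈ Icc 1 Y, #d.divisors ^ 3 * ((2 * S + 1) / d + 1) := by
  sorry

end Pool.Agent.Helper16.HF
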