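import Pool.Agent.Helper16.HF.Hyper
import Pool.Agent.Helper16.HF.OddDiv

/-!
# HF/CaseOne: hits by windows whose missing numbers are at most `m`

For `u` as in the set let `t₀` be the least `t ∈ T` with `u ≤ t`.  Then `{t ∈ T | u ≤ t} = {t ∈ T | t₀ ≤ t}`.  So the set is
contained in the union over `t₀ ∈ T` of the sets of `hyper` with `c = 2 * ∑ t ∈ T with t₀ ≤ t, t` (`0 < c ≤ 2 R m < 2^k`), `y = v + 1 - u`,
`z = u + v` (`y < z` since `1 ≤ u`; `z < y + 2 m` since `u ≤ m`; `y + z = 2 v + 1` odd).  Then `hyper` and `sum_odd_div`.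
-/

set_option autoImplicit false

namespace Pool.Agent.Helper16.HF

open Finset

open Classical in
theorem case_one (k m R S Y : ℕ) (T : Finset ℕ) (hT : ∀ t ∈ T, 1 ≤ t ∧ t ≤ m) (hR : #T ≤ R)
    (hm : 1 ≤ m) (hq : 2 * R * m < 2 ^ k) (hS : 6 * m ^ 2 / 2 ^ k + 1 ≤ S)
    (hY : 2 ^ k * (S + 1) ≤ Y ^ 3) :
    #{p ∈ Ioc (2 ^ k) (2 ^ k + m) | ∃ u v : ℕ, 1 ≤ u ∧ u ≤ m ∧ u < v ∧ (∃ t ∈ T, u ≤ t) ∧
      (v + 1 - u) * (u + v) = 2 ^ k * p + 2 * ∑ t ∈ T with u ≤ t, t} ≤ capOne R S Y := by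
  sorry

end Pool.Agent.Helper16.HF
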