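import Pool.Agent.Helper16.HF.GcdSum

/-!
# HF/CaseTwo: hits by short windows

For a `p` of the set choose `u, v`, let `y = v + 1 - u ≤ Ym` (`1 ≤ y`), `t₁` / `t₂` the least / greatest element of `T` in `[u, v]`.
Then `{t ∈ T | u ≤ t ≤ v} = {t ∈ T | t₁ ≤ t ≤ t₂}`, so for fixed `(t₁, t₂)` the sum `Δ` is fixed, and
`y (2 u + y - 1) = 2^(k+1) p + 2 Δ`.  So `p` is determined by `(t₁, t₂, y, u)`.
* `count_u`: for fixed `t₁, t₂, y` two solutions `u, u'` satisfy `2^(k+1) ∣ 2 y (u - u')`, so `2^k / g ∣ u - u'`, `g = gcd(y, 2^k)`, and they lie in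
  `[t₁ - y + 1, t₁]`, so there are at most `y g / 2^k + 1` of them.
* Sum over `y`: `∑_{y ≤ Ym} (y g / 2^k + 1) ≤ Ym + (Ym * ∑ g) / 2^k ≤ Ym + Ym^2 (log₂ Ym + 1) / 2^k` (`gcd_sum`; sums of
  natural divisions are at most the division of the sum), at most `R^2` pairs `(t₁, t₂)`.
-/

set_option autoImplicit false

namespace Pool.Agent.Helper16.HF

open Finset

/-- at most `y * gcd(y, 2^k) / 2^k + 1` elements of an interval of `y` integers are pairwise congruent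
in the sense `2^k ∣ y (u - u')` -/
theorem count_u (k y b : ℕ) (hy : 1 ≤ y) (U : Finset ℕ) (hU : ∀ u ∈ U, b < u + y ∧ u ≤ b)
    (hc : ∀ u ∈ U, ∀ u' ∈ U, (2 : ℤ) ^ k ∣ (y : ℤ) * ((u : ℤ) - u')) :
    #U ≤ y * Nat.gcd y (2 ^ k) / 2 ^ k + 1 := by
  sorry

open Classical in
theorem case_two (k m R Ym : ℕ) (T : Finset ℕ) (hR : #T ≤ R) :
    #{p ∈ Ioc (2 ^ (k + 1)) (2 ^ (k + 1) + m) | ∃ u v : ℕ, u ≤ v ∧ v + 1 - u ≤ Ym ∧
      (∃ t ∈ T, u ≤ t ∧ t ≤ v) ∧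
      (v + 1 - u) * (u + v) = 2 ^ (k + 1) * p + 2 * ∑ t ∈ T with (u ≤ t ∧ t ≤ v), t} ≤
      capTwo R Ym k := by
  sorry

end Pool.Agent.Helper16.HF
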