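import Pool.Agent.Helper16.HF.Dicho

/-!
# HF/Chain: `a n ≥ n + c log n / loglog n`

`dicho 2` gives `C, m₀`.  Let `n` be large, `L = log n`, `b = #(miss a 1 (a n)) = a n - n` (`card_miss`), `n ≤ a n` (`ge_self`).  If `b > L` we are done.
Otherwise every missing `m` with `n^(1/40) ≤ m ≤ n^(1/3)` has, by `dicho 2`, a missing `t`, `m < t ≤ m L^C`: the second alternative
would give `L < (L / 40)^2 ≤ (log m)^2 < #(miss a 1 ⌊m^2 (log m)^C⌋) ≤ b ≤ L`, as `m^2 L^C ≤ n ≤ a n`.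
By `gap` for `x = ⌈n^(1/40)⌉` there is a missing `m_1` with `n^(1/40) < m_1 ≤ 2 (x (x+1))^2 ≤ n^(1/6)`.  `chain_step`: from a missing `m_1` one gets for every
`j` with `m_1 L^(C j) ≤ n^(1/3)` at least `j + 1` missing numbers up to `m_1 L^(C j)` (induction: the largest one of them is `≤ n^(1/3)`, its
successor is `≤ m L^C`).  `j = ⌊L / (6 C log L)⌋` is allowed, so `b ≥ j`.
For small `n` (`16 ≤ n ≤ n₀`): `b ≥ 1` for `n ≥ 4` (`missing_four`: `4` is missing and `4 ≤ a n`), `log n / loglog n` is bounded on `[16, n₀]`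
(`loglog n > 0` as `n ≥ 16 > e^e`), take `c` small.
-/

set_option autoImplicit false

namespace Pool.Agent.Helper16.HF

open Finset

theorem chain {a : ℕ → ℕ} (m₁ N : ℕ) (K : ℝ) (hK : 1 ≤ K) (hm : Missing a m₁)
    (hs : ∀ m : ℕ, m₁ ≤ m → m ≤ N → Missing a m →
      ∃ t : ℕ, m < t ∧ (t : ℝ) ≤ m * K ∧ Missing a t) (j : ℕ) (hj : (m₁ : ℝ) * K ^ j ≤ N) :
    j + 1 ≤ #(miss a 1 N) := by
  sorry

theorem final : ∃ c : ℝ, 0 < c ∧ ∀ a : ℕ → ℕ, IsHof a → ∀ n : ℕ, 16 ≤ n →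
    (n : ℝ) + c * Real.log n / Real.log (Real.log n) ≤ a n := by
  sorry

end Pool.Agent.Helper16.HF
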