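import Mathlib

/-!
Definitions for Hofstadter's consecutive-sum sequence.
-/

set_option autoImplicit false

namespace Pool.Agent.Helper16.HF

open Finset

/-- The defining recursion of the sequence (as in the problem file). -/
def IsHof (a : ℕ → ℕ) : Prop := a 1 = 1 ∧ a 2 = 2 ∧
  ∀ n : ℕ, 3 ≤ n → IsLeast {m : ℕ | a (n - 1) < m ∧
    ∃ i j : ℕ, 1 ≤ i ∧ i < j ∧ j < n ∧ m = ∑ k ∈ Finset.Icc i j, a k} (a n)

/-- `m ≥ 1` does not occur in the sequence. -/
def Missing (a : ℕ → ℕ) (m : ℕ) : Prop := 1 ≤ m ∧ ∀ k, 1 ≤ k → a k ≠ m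

open Classical in
/-- the missing numbers in `[u, v]` -/
noncomputable def miss (a : ℕ → ℕ) (u v : ℕ) : Finset ℕ := (Icc u v).filter (Missing a)

theorem mem_miss {a : ℕ → ℕ} {u v t : ℕ} : t ∈ miss a u v ↔ (u ≤ t ∧ t ≤ v) ∧ Missing a t := by
  classical
  unfold miss
  rw [mem_filter, mem_Icc]

/-- the exponents: `cap S m R Y` bounds the number of hits of the first kind -/
def capOne (R S Y : ℕ) : ℕ := R * (16 * ∑ d ∈ Icc 1 Y, #d.divisors ^ 3 * ((2 * S + 1) / d + 1))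

/-- bound for the number of hits of the second kind -/
def capTwo (R Ym k : ℕ) : ℕ := R ^ 2 * (Ym + Ym ^ 2 * (Nat.log 2 Ym + 1) / 2 ^ k)

end Pool.Agent.Helper16.HF
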