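import Pool.Agent.Helper16.SW.ZSum

/-!
# HF/PB: mass of the weight on the integers, and prime powers, uniformly in the width `V ≤ 1`

* `om_unif`: the proof of `Pool.Agent.Helper16.SW.stOmSum` (ZSum.lean) with `δ = 1 - exp (-(V/2)) ≥ V/4` (`V ≤ 1`) and `2 ≤ δ X`
  from `8 ≤ V X`; the constant there is `δ / 2 * ((1/2)^k * exp (-1) * (1/2))`.
* `pp_unif`: the proof of `Pool.Agent.Helper16.SW.stPrimePow` with `V` replaced by `1` in the final estimate
  (`V + log X ≤ 1 + log X`, `exp V ≤ exp 1`).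
-/

set_option autoImplicit false

namespace Pool.Agent.Helper16.HF

open Finset Filter Pool.Agent.Helper6.SW

theorem om_unif (k : ℕ) : ∃ c X₀ : ℝ, 0 < c ∧ ∀ V X : ℝ, 0 < V → V ≤ 1 → X₀ ≤ X → 8 ≤ V * X →
    c * V * (Real.log X) ^ k ≤ ∑ n ∈ Icc 1 (NX V X), om V k X n := by
  sorry

theorem pp_unif (k : ℕ) : ∃ X₀ : ℝ, ∀ V X : ℝ, 0 < V → V ≤ 1 → X₀ ≤ X →
    ∑ n ∈ Icc 1 (NX V X), ArithmeticFunction.vonMangoldt n * om V k X n ≤ Mass V k X + 1 := by
  sorry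

end Pool.Agent.Helper16.HF
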