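import Pool.Agent.Helper16.HF.PA
import Pool.Agent.Helper16.HF.PB

/-!
# HF/PD: primes in short intervals `(q, q + m]`, `m ≥ q / (log q)^B`

Let `L = log q`, `V = 1 / (4 L^B)` (`≤ 1`), `X = q exp V`, `k = 2 B + 2` (so `log q ≤ log X ≤ 2 log q`).
* `Mass V k X ≥ ∑ Λ om - 1 ≥ ∑ om - D / V - 1 ≥ c V (log X)^k - D / V - 1` (`pp_unif`, `error_unif`, `om_unif`), and
  `c V (log X)^k ≥ (c / 4) L^(B + 2)`, `D / V + 1 ≤ (4 D + 1) L^B`, so `Mass V k X ≥ (c / 8) L^(B+2)` for large `q`.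
* For `p` with `om V k X p ≠ 0`: `q = exp (-V) X < p` and `log p * om V k X p ≤ 2^(k+1) exp 1 (log X)^(k+1) / X` (`term_upper` in
  Helper6/SW/MassAll) `≤ 2^(2k+2) exp 1 L^(2B+3) / q`, and `p < exp V X = q exp (2V) ≤ q (1 + 4 V) ≤ q + q / L^B ≤ q + m`
  (`|log p - log X| < V` from `tent ≠ 0`; `exp t ≤ 1 + 2 t` for `0 ≤ t ≤ 1`).
* So `#primes * (2^(2k+2) exp 1 L^(2B+3) / q) ≥ Mass ≥ (c/8) L^(B+2)`: `#primes ≥ c' q / L^(B+1) ≥ q / L^(B+2)` for large `q`.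
-/

set_option autoImplicit false

namespace Pool.Agent.Helper16.HF

open Finset Pool.Agent.Helper6.SW

theorem pnt_short (B : ℕ) : ∃ q₀ : ℕ, ∀ q m : ℕ, q₀ ≤ q → (q : ℝ) / (Real.log q) ^ B ≤ m →
    (q : ℝ) / (Real.log q) ^ (B + 2) ≤ #((Ioc q (q + m)).filter Nat.Prime) := by
  sorry

end Pool.Agent.Helper16.HF
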