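import Pool.Agent.Helper16.HF.DivSum
import Pool.Agent.Helper16.HF.PD

/-!
# HF/Params: choice of the parameters

`ℓ = log m`, `B = A + 14`, `B' = 2 A + B + 6`, `R = ⌊ℓ^A⌋`, `k + 1` the least exponent with `m ℓ^B ≤ 2^(k+1)` (so `q = 2^(k+1) < 2 m ℓ^B`),
`W = ⌈ℓ^B'⌉`, `S = 6 m^2 / q + 1` (natural division), `Y = ⌈2 m^(2/3)⌉`, `C` large.  For large `m` (all `o(1)` statements are routine):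
* `2 R m < q`; `q (S + 1) ≤ 6 m^2 + 2 q ≤ 8 m^2 ≤ Y^3`; `q^2 ≤ 4 m^2 ℓ^(2B) ≤ m^2 ℓ^C`; `W q ≤ 4 m ℓ^(B + B') ≤ m ℓ^C`.
* `S ≤ 6 m / ℓ^B + 1`, `1 + log Y ≤ ℓ`, so `capOne_le`: `capOne R S Y ≤ 16 ℓ^(A+8) (12 m / ℓ^B + 3 + Y) ≤ 300 m / ℓ^6`.
* `Ym = 2 q / W + R ≤ 4 m / ℓ^(2A+6) + ℓ^A ≤ 5 m / ℓ^(2A+6)`, `Ym (log₂ Ym + 1) ≤ 2^k`, so `capTwo ≤ 2 R^2 Ym ≤ 10 m / ℓ^6`.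
* primes: `m ≥ q / (2 ℓ^B) ≥ q / (log q)^(B+1)`, so `pnt_short (B+1)`: at least `q / (log q)^(B+3) ≥ m ℓ^B / (2 ℓ)^(B+3) = m / (2^(B+3) ℓ^3)`, which is larger than
  `ℓ^A + 310 m / ℓ^6`.
-/

set_option autoImplicit false

namespace Pool.Agent.Helper16.HF

open Finset

theorem params (A : ℕ) : ∃ C m₀ : ℕ, ∀ m : ℕ, m₀ ≤ m → ∃ k W S Y : ℕ,
    2 * ⌊(Real.log m) ^ A⌋₊ * m < 2 ^ (k + 1) ∧ 4 ≤ W ∧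
    6 * m ^ 2 / 2 ^ (k + 1) + 1 ≤ S ∧ 2 ^ (k + 1) * (S + 1) ≤ Y ^ 3 ∧
    (((2 ^ (k + 1)) ^ 2 : ℕ) : ℝ) ≤ (m : ℝ) ^ 2 * (Real.log m) ^ C ∧
    ((W * 2 ^ (k + 1) : ℕ) : ℝ) ≤ m * (Real.log m) ^ C ∧
    ⌊(Real.log m) ^ A⌋₊ + capOne ⌊(Real.log m) ^ A⌋₊ S Y +
      capTwo ⌊(Real.log m) ^ A⌋₊ (2 ^ (k + 2) / W + ⌊(Real.log m) ^ A⌋₊) k <
      #((Ioc (2 ^ (k + 1)) (2 ^ (k + 1) + m)).filter Nat.Prime) := by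
  sorry

end Pool.Agent.Helper16.HF
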