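import Pool.Agent.Helper16.HF.Main
import Pool.Agent.Helper16.HF.Params

/-!
# HF/Dicho: the dichotomy

With `params A`: let `m ≥ m₀` be missing and suppose the second alternative fails, so
`#(miss a 1 ⌊m^2 ℓ^C⌋) ≤ ℓ^A`, hence `≤ R = ⌊ℓ^A⌋` and `#(miss a 1 (q^2)) ≤ R`, `q = 2^(k+1)`.  If no `t` with `m < t ≤ W q` were missing then
`main_ineq` would contradict the last inequality of `params`.  So some missing `t` has `m < t ≤ W q ≤ m ℓ^C`.
-/

set_option autoImplicit false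

namespace Pool.Agent.Helper16.HF

open Finset

theorem dicho (A : ℕ) : ∃ C m₀ : ℕ, ∀ a : ℕ → ℕ, IsHof a → ∀ m : ℕ, m₀ ≤ m → Missing a m →
    (∃ t : ℕ, m < t ∧ (t : ℝ) ≤ m * (Real.log m) ^ C ∧ Missing a t) ∨
      (Real.log m) ^ A < #(miss a 1 ⌊(m : ℝ) ^ 2 * (Real.log m) ^ C⌋₊) := by
  obtain ⟨C, m₀, hP⟩ := params A
  refine ⟨C, m₀, ?_⟩
  intro a h m hm hmiss
  obtain ⟨k, W, S, Y, h1, h2, h3, h4, h5, h6, h7⟩ := hP m hm
  by_cases hsec : (Real.log m) ^ A < #(miss a 1 ⌊(m : ℝ) ^ 2 * (Real.log m) ^ C⌋₊)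
  · exact Or.inr hsec
  · left
    push Not at hsec
    by_contra hcon
    push Not at hcon
    have hR : #(miss a 1 ((2 ^ (k + 1)) ^ 2)) ≤ ⌊(Real.log m) ^ A⌋₊ := by
      refine le_trans ?_ (Nat.le_floor hsec)
      refine card_le_card ?_
      intro t ht
      rw [mem_miss] at ht ⊢
      exact ⟨⟨ht.1.1, ht.1.2.trans (Nat.le_floor h5)⟩, ht.2⟩
    have hgap : ∀ t, m < t → t ≤ W * 2 ^ (k + 1) → ¬ Missing a t := by
      intro t ht1 ht2
      refine hcon t ht1 (le_trans ?_ h6)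
      exact_mod_cast ht2
    have := main_ineq h m k _ W S Y hmiss hR hgap h1 h2 h3 h4
    omega

end Pool.Agent.Helper16.HF
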