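import Pool.Agent.Helper16.HF.Landreau

/-!
# HF/DivSum: `∑_{d ≤ Y} τ(d)^3 / d ≤ (1 + log Y)^8`

`step`: `∑_{n ≤ Y} τ(n)^(j+1) / n = ∑_{n ≤ Y} ∑_{x y = n} τ(x y)^j / (x y) ≤ ∑_{x, y ≤ Y} τ(x)^j τ(y)^j / (x y)` (`tau_mul_le`; the pairs
`(x, y)` of `n.divisorsAntidiagonal` for `1 ≤ n ≤ Y` are different elements of `Icc 1 Y ×ˢ Icc 1 Y`; `#n.divisors` is the number
of elements of `n.divisorsAntidiagonal`).
`j = 0`: `∑_{n ≤ Y} 1/n ≤ 1 + log Y` (`harmonic_le_one_add_log`; `Y = 0` trivial).  Three steps.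
-/

set_option autoImplicit false

namespace Pool.Agent.Helper16.HF

open Finset

theorem tau_step (j Y : ℕ) : ∑ n ∈ Icc 1 Y, (#n.divisors : ℝ) ^ (j + 1) / n ≤
    (∑ n ∈ Icc 1 Y, (#n.divisors : ℝ) ^ j / n) ^ 2 := by
  sorry

theorem sum_tau_div (Y : ℕ) : ∑ d ∈ Icc 1 Y, (#d.divisors : ℝ) ^ 3 / d ≤ (1 + Real.log Y) ^ 8 := by
  sorry

/-- the bound for the hits of the first kind in closed form: `(2 S + 1) / d + 1 ≤ (2 S + 1 + Y) / d` for `d ≤ Y` -/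
theorem capOne_le (R S Y : ℕ) : (capOne R S Y : ℝ) ≤
    16 * R * (2 * S + 1 + Y) * (1 + Real.log Y) ^ 8 := by
  sorry

end Pool.Agent.Helper16.HF
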