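import Pool.Agent.Helper16.HF.Defs

/-!
# HF/Full: the only window of `2^k p` in the integers

`y z = 2^(k+1) p`, `y + z` odd, so exactly one of `y, z` is odd; the even one is divisible by `2^(k+1)` (coprimality), the odd one
divides `p`, so it is `1` or `p`.  It is not `1` (`2 ≤ y < z`), so it is `p`, and the other one is `2^(k+1) < p`, so
`y = 2^(k+1)`, `z = p`.
-/

set_option autoImplicit false

namespace Pool.Agent.Helper16.HF

open Finset

theorem full_window (k p y z : ℕ) (hp : p.Prime) (hkp : 2 ^ (k + 1) < p)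
    (h : y * z = 2 ^ (k + 1) * p) (hy : 2 ≤ y) (hyz : y < z) (hodd : Odd (y + z)) :
    y = 2 ^ (k + 1) ∧ z = p := by
  sorry

end Pool.Agent.Helper16.HF
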