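import Pool.Agent.Helper16.HF.Defs

/-!
# HF/Gap: basic facts on the sequence and the gap theorem (helper1, LowerBoundLogFour)
-/

set_option autoImplicit false

namespace Pool.Agent.Helper16.HF

open Finset

lemma step {a : ℕ → ℕ} (h : IsHof a) (n : ℕ) (hn : 1 ≤ n) : a n < a (n + 1) := by
  obtain ⟨h1, h2, h3⟩ := h
  rcases Nat.lt_or_ge n 2 with h | h
  · have : n = 1 := by omega
    subst this
    simp [h1, h2]
  · have := (h3 (n + 1) (by omega)).1.1
    simpa using this

lemma lt_of_lt {a : ℕ → ℕ} (h : IsHof a) {i j : ℕ} (hi : 1 ≤ i) (hij : i < j) : a i < a j := by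
  induction j, hij using Nat.le_induction with
  | base => exact step h i hi
  | succ j hj ih => exact ih.trans (step h j (by omega))

lemma le_of_le {a : ℕ → ℕ} (h : IsHof a) {i j : ℕ} (hi : 1 ≤ i) (hij : i ≤ j) : a i ≤ a j := by
  rcases hij.lt_or_eq with h' | h'
  · exact (lt_of_lt h hi h').le
  · rw [h']

lemma index_le {a : ℕ → ℕ} (h : IsHof a) {i j : ℕ} (hj : 1 ≤ j) (hij : a i ≤ a j) :
    i ≤ j := by
  by_contra hcon
  push Not at hcon
  have := lt_of_lt h hj hcon
  omega

lemma ge_self {a : ℕ → ℕ} (h : IsHof a) (n : ℕ) (hn : 1 ≤ n) : n ≤ a n := by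
  induction n, hn using Nat.le_induction with
  | base => rw [h.1]
  | succ n hn ih => have := step h n hn; omega

/-- Gap theorem: some integer in `(x, 2x²(x+1)²]` is missing. -/
theorem gap {a : ℕ → ℕ} (h : IsHof a) (x : ℕ) (hx : 1 ≤ x) :
    ∃ m, x < m ∧ m ≤ 2 * (x * (x + 1)) ^ 2 ∧ Missing a m := by
  by_contra hcon
  push Not at hcon
  set c := x * (x + 1) with hc
  have hc2 : 2 ≤ c := by rw [hc]; nlinarith
  set e := Nat.log 2 c + 1 with he
  have he1 : c < 2 ^ e := Nat.lt_pow_succ_log_self (by norm_num) c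
  have he2 : 2 ^ (e - 1) ≤ c := by
    have := Nat.pow_log_le_self 2 (x := c) (by omega)
    simpa [he] using this
  have hepos : 1 ≤ e := by omega
  set N := 2 ^ (2 * e - 1) with hN
  have h2N : 2 * N = 2 ^ e * 2 ^ e := by
    rw [hN, ← pow_succ', ← pow_add]; congr 1; omega
  have hpe : 2 ^ e = 2 * 2 ^ (e - 1) := by rw [← pow_succ']; congr 1
  have hNle : N ≤ 2 * c ^ 2 := by
    have : 2 * N ≤ (2 * c) * (2 * c) := by
      rw [h2N]; exact Nat.mul_le_mul (by omega) (by omega)
    nlinarith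
  have hNge : c < N := by
    have : 2 * c < 2 * N := by
      rw [h2N]
      calc 2 * c ≤ c * c := by nlinarith
        _ < 2 ^ e * 2 ^ e := Nat.mul_lt_mul'' he1 he1
    omega
  have hxc : x ≤ c := by rw [hc]; nlinarith
  have hin : ∀ m, x < m → m ≤ N → ∃ k, 1 ≤ k ∧ a k = m := by
    intro m h1 h2
    have := hcon m h1 (h2.trans hNle)
    unfold Missing at this
    push Not at this
    exact this (by omega)
  obtain ⟨t, ht1, ht⟩ := hin N (by omega) le_rfl
  have ht3 : 3 ≤ t := by
    by_contra hlt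
    have h4 : a t ≤ 2 := by
      have := le_of_le h ht1 (show t ≤ 2 by omega)
      rw [h.2.1] at this; exact this
    omega
  obtain ⟨_, i, j, hi, hij, hjt, hsum⟩ := (h.2.2 t ht3).1
  rw [ht] at hsum
  set α := a i with hα
  set β := a j with hβ
  have hαβ : α < β := lt_of_lt h hi hij
  have hβN : β < N := by rw [← ht]; exact lt_of_lt h (by omega) hjt
  have hα1 : 1 ≤ α := by have := ge_self h i hi; omega
  -- rewrite as sum over values
  have himg : (Finset.Icc i j).image a ⊆ Finset.Icc α β := by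
    intro y hy
    rw [Finset.mem_image] at hy
    obtain ⟨k, hk, rfl⟩ := hy
    rw [Finset.mem_Icc] at hk ⊢
    exact ⟨le_of_le h hi hk.1, le_of_le h (by omega) hk.2⟩
  have hinj : Set.InjOn a (Finset.Icc i j : Finset ℕ) := by
    intro k hk l hl hkl
    rw [Finset.coe_Icc, Set.mem_Icc] at hk hl
    apply le_antisymm
    · exact index_le h (by omega) hkl.le
    · exact index_le h (by omega) hkl.ge
  have hsum2 : ∑ y ∈ (Finset.Icc i j).image a, y = N := by
    rw [Finset.sum_image hinj, hsum]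
  set E := ∑ y ∈ Finset.Icc α β \ (Finset.Icc i j).image a, y with hE
  have hNE : E + N = ∑ y ∈ Finset.Icc α β, y := by
    rw [← hsum2, hE]
    exact Finset.sum_sdiff himg
  have gauss : ∀ u v : ℕ, u ≤ v + 1 → 2 * ∑ y ∈ Finset.Icc u v, y + u * u = v * (v + 1) + u := by
    intro u v huv
    induction v with
    | zero =>
      interval_cases u <;> simp
    | succ v ih =>
      rcases Nat.lt_or_ge (v + 1) u with h | h
      · have : u = v + 2 := by omega
        subst this
        rw [Finset.Icc_eq_empty (by omega)]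
        simp; ring
      · have := ih h
        rw [Finset.sum_Icc_succ_top (by omega), mul_add]
        nlinarith
  have hg1 := gauss α β (by omega)
  have hsub : Finset.Icc α β \ (Finset.Icc i j).image a ⊆ Finset.Icc α x := by
    intro y hy
    rw [Finset.mem_sdiff, Finset.mem_Icc] at hy
    rw [Finset.mem_Icc]
    refine ⟨hy.1.1, ?_⟩
    by_contra hyx
    push Not at hyx
    obtain ⟨k, hk1, hk⟩ := hin y hyx (by omega)
    apply hy.2
    rw [Finset.mem_image]
    refine ⟨k, ?_, hk⟩
    rw [Finset.mem_Icc]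
    constructor
    · exact index_le h hk1 (by omega)
    · exact index_le h (by omega) (by omega)
  -- the key quantity
  have hkey : 2 * E + α * α ≤ c + α ∨ (E = 0 ∧ x < α) := by
    rcases Nat.lt_or_ge x α with hxα | hxα
    · right
      refine ⟨?_, hxα⟩
      have : Finset.Icc α β \ (Finset.Icc i j).image a = ∅ := by
        rw [← Finset.subset_empty, ← Finset.Icc_eq_empty (show ¬ α ≤ x by omega)]
        exact hsub
      rw [hE, this, Finset.sum_empty]
    · left
      have h1 : E ≤ ∑ y ∈ Finset.Icc α x, y := by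
        rw [hE]
        exact Finset.sum_le_sum_of_subset hsub
      have h2 := gauss α x (by omega)
      rw [hc]
      omega
  have hαα : α ≤ α * α := Nat.le_mul_self α
  have hββ : β * (β + 1) + α = 2 * E + 2 * N + α * α := by
    rw [← hg1, ← hNE]; ring
  rcases hkey with hk | ⟨hE0, hxα⟩
  · -- no square is close enough above a power of four
    rw [h2N] at hββ
    rcases Nat.lt_or_ge β (2 ^ e) with hb | hb
    · have : β * (β + 1) ≤ (2 ^ e) * (2 ^ e) - 2 ^ e := by
        have h3 : β + 1 ≤ 2 ^ e := hb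
        obtain ⟨r, hr⟩ : ∃ r, 2 ^ e = r + 1 := ⟨2 ^ e - 1, by omega⟩
        rw [hr] at h3 ⊢
        have h4 : β ≤ r := by omega
        calc β * (β + 1) ≤ r * (r + 1) := Nat.mul_le_mul h4 h3
          _ = (r + 1) * (r + 1) - (r + 1) := by
              rw [← Nat.sub_one_mul]; simp
      have h5 : 2 ^ e ≤ 2 ^ e * 2 ^ e := Nat.le_mul_self _
      omega
    · have : 2 ^ e * 2 ^ e + 2 ^ e ≤ β * (β + 1) := by
        calc 2 ^ e * 2 ^ e + 2 ^ e = 2 ^ e * (2 ^ e + 1) := by ring
          _ ≤ β * (β + 1) := Nat.mul_le_mul hb (by omega)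
      omega
  · -- a power of two is not a sum of at least two consecutive positive integers
    rw [hE0] at hββ
    obtain ⟨d, hd⟩ : ∃ d, β = α + d + 1 := ⟨β - α - 1, by omega⟩
    have hfac : (d + 2) * (2 * α + d + 1) = 2 ^ (2 * e) := by
      have h6 : 2 ^ (2 * e) = 2 * N := by rw [h2N, ← pow_add]; congr 1; omega
      rw [h6]
      have h7 : β * (β + 1) + α = 2 * N + α * α := by omega
      rw [hd] at h7
      have h8 : (d + 2) * (2 * α + d + 1) + α * α = (α + d + 1) * (α + d + 1 + 1) + α := by ring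
      omega
    have hd1 : (d + 2) ∣ 2 ^ (2 * e) := ⟨_, hfac.symm⟩
    have hd2 : (2 * α + d + 1) ∣ 2 ^ (2 * e) := ⟨d + 2, by rw [← hfac]; ring⟩
    obtain ⟨r, _, hr⟩ := (Nat.dvd_prime_pow Nat.prime_two).1 hd1
    obtain ⟨s, _, hs⟩ := (Nat.dvd_prime_pow Nat.prime_two).1 hd2
    have hr1 : 1 ≤ r := by
      by_contra h0
      have : r = 0 := by omega
      subst this
      simp at hr
    have hs1 : 1 ≤ s := by
      by_contra h0
      have : s = 0 := by omega
      subst this
      simp at hs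
      omega
    have e1 : 2 ∣ d + 2 := by rw [hr]; exact dvd_pow_self 2 (by omega)
    have e2 : 2 ∣ 2 * α + d + 1 := by rw [hs]; exact dvd_pow_self 2 (by omega)
    omega

lemma a_three {a : ℕ → ℕ} (h : IsHof a) : a 3 = 3 := by
  obtain ⟨h1, h2, h3⟩ := h
  have := (h3 3 le_rfl).2 (show (3:ℕ) ∈ _ from ⟨by simp [h2], 1, 2, by norm_num, by norm_num, by norm_num, by
    rw [Finset.sum_Icc_succ_top (by norm_num)]; simp [h1, h2]⟩)
  have h5 := (h3 3 le_rfl).1.1
  simp [h2] at h5
  omega

lemma a_four {a : ℕ → ℕ} (h : IsHof a) : a 4 = 5 := by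
  have e3 := a_three h
  obtain ⟨h1, h2, h3⟩ := h
  have hmem := (h3 4 (by norm_num)).1
  have hle := (h3 4 (by norm_num)).2 (show (5:ℕ) ∈ _ from ⟨by simp [e3], 2, 3, by norm_num, by norm_num, by norm_num, by
    rw [Finset.sum_Icc_succ_top (by norm_num)]; simp [h2, e3]⟩)
  obtain ⟨hlt, i, j, hi, hij, hj, hs⟩ := hmem
  simp [e3] at hlt
  have hc : (i = 1 ∧ j = 2) ∨ (i = 1 ∧ j = 3) ∨ (i = 2 ∧ j = 3) := by omega
  rcases hc with ⟨rfl, rfl⟩ | ⟨rfl, rfl⟩ | ⟨rfl, rfl⟩ <;>
    simp [Finset.sum_Icc_succ_top, h1, h2, e3] at hs <;> omega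

lemma missing_four {a : ℕ → ℕ} (h : IsHof a) : Missing a 4 := by
  refine ⟨by norm_num, ?_⟩
  intro k hk hk4
  have h3 := a_three h
  have h4 := a_four h
  rcases Nat.lt_or_ge k 4 with hlt | hge
  · have := le_of_le h hk (show k ≤ 3 by omega); omega
  · have := le_of_le h (by norm_num) hge; omega

lemma card_miss {a : ℕ → ℕ} (h : IsHof a) (n : ℕ) (hn : 1 ≤ n) :
    (miss a 1 (a n)).card + n = a n := by
  classical
  have hinj : Set.InjOn a (Finset.Icc 1 n : Finset ℕ) := by
    intro k hk l hl hkl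
    rw [Finset.coe_Icc, Set.mem_Icc] at hk hl
    apply le_antisymm
    · exact index_le h (by omega) hkl.le
    · exact index_le h (by omega) hkl.ge
  have h1 : ((Finset.Icc 1 n).image a).card = n := by
    rw [Finset.card_image_of_injOn hinj]; simp
  have h2 : miss a 1 (a n) = Finset.Icc 1 (a n) \ (Finset.Icc 1 n).image a := by
    ext m
    simp only [miss, Finset.mem_filter, Finset.mem_sdiff, Finset.mem_image, Finset.mem_Icc]
    constructor
    · rintro ⟨h3, h4⟩
      refine ⟨h3, ?_⟩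
      rintro ⟨k, hk, hkm⟩
      exact h4.2 k hk.1 hkm
    · rintro ⟨h3, h4⟩
      refine ⟨h3, h3.1, fun k hk hkm => h4 ⟨k, ⟨hk, ?_⟩, hkm⟩⟩
      exact index_le h hn (by omega)
  have h3 : (Finset.Icc 1 n).image a ⊆ Finset.Icc 1 (a n) := by
    intro y hy
    rw [Finset.mem_image] at hy
    obtain ⟨k, hk, rfl⟩ := hy
    rw [Finset.mem_Icc] at hk ⊢
    have := ge_self h k hk.1
    exact ⟨by omega, le_of_le h hk.1 hk.2⟩
  rw [h2, Finset.card_sdiff_of_subset h3, h1, Nat.card_Icc]
  have := ge_self h n hn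
  omega

end Pool.Agent.Helper16.HF
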