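import Pool.Agent.Helper16.HF.Defs

/-!
# HF/GcdSum: `∑_{y ≤ Y} gcd(y, 2^k) ≤ Y (log₂ Y + 1)`

`gcd(y, 2^k) = 2^i` for some `i ≤ log₂ y` with `2^i ∣ y`, so `gcd(y, 2^k) ≤ ∑_{i ≤ log₂ Y} 2^i [2^i ∣ y]`; exchange the sums:
`∑_{i ≤ log₂ Y} 2^i * (Y / 2^i) ≤ (log₂ Y + 1) Y` (`Nat.card_multiples` or `Nat.Ioc_filter_dvd_card_eq_div`).
-/

set_option autoImplicit false

namespace Pool.Agent.Helper16.HF

open Finset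

theorem gcd_sum (k Y : ℕ) : ∑ y ∈ Icc 1 Y, Nat.gcd y (2 ^ k) ≤ Y * (Nat.log 2 Y + 1) := by
  sorry

end Pool.Agent.Helper16.HF
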