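import Pool.Agent.Helper16.HF.Defs

/-!
# HF/Hyper: points of a modular hyperbola near the diagonal

Put `q = 2^k`.  For a `p` of the set choose `y, z` and let `α = y - q`, `β = z - q` (integers), `s = p - q - α - β`.
* `y z = q^2 + q (α + β) + α β = q p + c`, so `α β = c + q s`.
* `y < q + m`: otherwise `y z > y^2 ≥ (q + m)^2 ≥ q^2 + q m + q > q p + c`.  `z > q`: otherwise `y z < q^2 < q p`.  So `α < m`,
  `0 < β < 3 m`, `α > -2 m` (as `z < y + 2 m`), `|α β| < 6 m^2`, `q |s| ≤ |α β| + c < 6 m^2 + q`, so `|s| ≤ 6 m^2 / q + 1 ≤ S`.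
* `n = |c + q s| = |α| |β| ≠ 0` because `0 < c < q`.
* `α + β = y + z - 2 q` is odd, so exactly one of `α, β` is odd; it is `±d` with `d` an odd divisor of `n`.
* The data `s`, which of the two is odd (`Bool`), its sign (`Bool`), and `d` determine `α` and `β` (the other factor is
  `(c + q s) / (±d)`), hence `p = q + α + β + s`.  So `p ↦ (s, which, sign, d)` is injective into the sigma type
  with `∑_s 4 * #{odd divisors of n_s}` elements.
-/

set_option autoImplicit false

namespace Pool.Agent.Helper16.HF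

open Finset

open Classical in
theorem hyper (k c m S : ℕ) (hc : 0 < c) (hcq : c < 2 ^ k) (hm : 1 ≤ m)
    (hS : 6 * m ^ 2 / 2 ^ k + 1 ≤ S) :
    #{p ∈ Ioc (2 ^ k) (2 ^ k + m) | ∃ y z : ℕ, y * z = 2 ^ k * p + c ∧ y < z ∧ z < y + 2 * m ∧
      Odd (y + z)} ≤
      4 * ∑ s ∈ Icc (-(S : ℤ)) S, #{d ∈ (((c : ℤ) + 2 ^ k * s).natAbs).divisors | Odd d} := by
  sorry

end Pool.Agent.Helper16.HF
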