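import Pool.Agent.Helper16.HF.Defs

/-!
# HF/Landreau: `τ(n) ≤ 4 ∑_{d ∣ n, d ≤ Y} τ(d)^3` for `n ≤ Y^3`

`split`: let `d` be the largest divisor of `n` with `d ≤ Y` (`1` is one).  If `d = n` we are done.  Otherwise there is a prime
`q ∣ n / d`; `d q ∣ n` and `d < d q`, so `Y < d q` by maximality; put `n' = n / (d q)`; then `n' Y < n' d q = n`.
`landreau`: `split n Y`: if `n ≤ Y` then `τ(n) ≤ τ(n)^3` is one term of the sum.  Otherwise `n = d₁ q₁ n'`, `n' Y < n ≤ Y^3`, so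
`n' < Y^2`; `split n' Y`: if `n' ≤ Y`, then `τ(n) ≤ 2 τ(d₁) τ(n')`; otherwise `n' = d₂ q₂ n''`, `n'' Y < n' < Y^2`, so `n'' < Y` and
`τ(n) ≤ 4 τ(d₁) τ(d₂) τ(n'') ≤ 4 max^3`.  (`τ(a b) ≤ τ(a) τ(b)`: `tau_mul_le`, e.g. `Nat.divisors_mul` and `card_image₂_le`/`card_mul_le`;
the maximum of the three is `τ(d)` for a divisor `d ≤ Y` of `n`, use `single_le_sum`.)
-/

set_option autoImplicit false

namespace Pool.Agent.Helper16.HF

open Finset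

theorem tau_mul_le (a b : ℕ) : #(a * b).divisors ≤ #a.divisors * #b.divisors := by
  sorry

theorem split (n Y : ℕ) (hn : 0 < n) (hY : 1 ≤ Y) :
    n ≤ Y ∨ ∃ d q n' : ℕ, n = d * q * n' ∧ d ≤ Y ∧ q.Prime ∧ n' * Y < n := by
  sorry

theorem landreau (n Y : ℕ) (hn : 0 < n) (h : n ≤ Y ^ 3) :
    #n.divisors ≤ 4 * ∑ d ∈ n.divisors.filter (· ≤ Y), #d.divisors ^ 3 := by
  sorry

end Pool.Agent.Helper16.HF
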