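import Pool.Agent.Helper16.HF.Basic
import Pool.Agent.Helper16.HF.CaseOne
import Pool.Agent.Helper16.HF.CaseTwo
import Pool.Agent.Helper16.HF.Full

/-!
# HF/Main: the counting inequality

`q = 2^(k+1)`.  `R ≥ 1` (`m` is missing and `m ≤ q^2`), so `2 m ≤ 2 R m < q`.  Let `P` be the set of primes in `(q, q + m]`, and for
`p ∈ P` `N = 2^k p`; `3 ≤ N`, `q^2 < 2 N ≤ q (q + m) ≤ 2 q^2`.
* The `p ∈ P` with `N` missing are at most `#(miss a 1 (q^2)) ≤ R` (`p ↦ 2^k p` is injective).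
* Let `N` be not missing, `u, v` from `window`, `y = v + 1 - u`, `z = u + v`: `y z = 2 N + 2 Δ = q p + 2 Δ`, `Δ = ∑ t ∈ miss a u v, t`
  (`gauss2`); `v ≤ N ≤ q^2` (`add_le`).
  (0) `miss a u v = ∅`: `full_window` gives `y = q`, `z = p`, so `2 u = p - q + 1 ≤ m + 1`, `2 v = p + q - 1 ≥ 2 m`, `m ∈ [u, v]` is missing, a
  contradiction.
  (2) some `t ∈ miss a u v` with `m < t`: then `W q < t ≤ v` (`hgap`).  `4 * #(miss a u v) ≤ 4 R ≤ v`.  If `2 u ≤ v` then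
  `v^2 ≤ 8 N ≤ 8 q^2` by `half`, but `v > 4 q`.  So `v < 2 u`, and `mul_le`: `u (y - R) ≤ N ≤ q^2`, so `W q (y - R) ≤ v (y - R) ≤ 2 q^2`,
  `y ≤ 2 q / W + R = 2^(k+2) / W + R`.  With `T = (miss a 1 (q^2)).filter (m < ·)`: `miss a u v = {t ∈ T | u ≤ t ≤ v}` since `m < u`
  (`u > v / 2 > 2 q`).  So `p` is in the set of `case_two`.
  (1) otherwise: all missing numbers in `[u, v]` are `≤ m` and there is one, so `u ≤ m`.  `m ≤ v`: otherwise `N ≤ ∑_{t ≤ v} t ≤ v^2 < m^2 < N`.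
  With `T = miss a 1 m`: `miss a u v = {t ∈ T | u ≤ t}`.  So `p` is in the set of `case_one` (exponent `k + 1`).
-/

set_option autoImplicit false

namespace Pool.Agent.Helper16.HF

open Finset

theorem main_ineq {a : ℕ → ℕ} (h : IsHof a) (m k R W S Y : ℕ) (hm : Missing a m)
    (hR : #(miss a 1 ((2 ^ (k + 1)) ^ 2)) ≤ R)
    (hgap : ∀ t, m < t → t ≤ W * 2 ^ (k + 1) → ¬ Missing a t)
    (hq : 2 * R * m < 2 ^ (k + 1)) (hW : 4 ≤ W) (hS : 6 * m ^ 2 / 2 ^ (k + 1) + 1 ≤ S)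
    (hY : 2 ^ (k + 1) * (S + 1) ≤ Y ^ 3) :
    #((Ioc (2 ^ (k + 1)) (2 ^ (k + 1) + m)).filter Nat.Prime) ≤
      R + capOne R S Y + capTwo R (2 ^ (k + 2) / W + R) k := by
  sorry

end Pool.Agent.Helper16.HF
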