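import Pool.Agent.Helper6.SW.MassAll
import Pool.Agent.Helper16.SW.ZCompact
import Pool.Agent.Helper16.SW.ZUp
import Pool.Agent.Helper16.SW.Triv
import Pool.Agent.Helper51.SW.Tent
import Pool.Agent.Helper51.SW.ZLD
import Pool.Agent.Helper51.SW.ZLower
import Pool.Agent.Helper51.SW.ZTransform

/-!
# HF/PA: the error term of the smoothed prime number theorem, uniformly in the width `V ≤ 1`

Copy the proof of `Pool.Agent.Helper6.SW.error_bound` (MassAll.lean).  There the constant is `K * ∫ (1 + t^2)^(-3/4)` with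
`K = C1 * (C2 * ((2 m)^m * 3) + |C3|)`, where `w t ≤ C1 / (1 + t^2)`.  For `w = wt V` (`Helper51.SW.stTent`, its proof gives
`C1 = (kap V)⁻¹ (V^2 * (5/2) + 2)`) one has `C1 ≤ 5 / (kap V)` for `V ≤ 1`.
* `tent_unif`: the first part, from the proof of `stTent` (`IsTentFT V (wt V)` and the pointwise bound).
-/

set_option autoImplicit false

namespace Pool.Agent.Helper16.HF

open Finset MeasureTheory Pool.Agent.Helper6.SW Pool.Agent.Helper1.SW Pool.Agent.Helper51.SW

theorem tent_unif : ∃ C : ℝ, 0 < C ∧ ∀ V : ℝ, 0 < V → V ≤ 1 → IsTentFT V (wt V) ∧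
    ∀ t, wt V t ≤ C / V / (1 + t ^ 2) := by
  sorry

theorem error_unif (k : ℕ) : ∃ D : ℝ, 0 < D ∧ ∀ V X : ℝ, 0 < V → V ≤ 1 → Real.exp 2 ≤ X →
    |∑ n ∈ Icc 1 (NX V X), (ArithmeticFunction.vonMangoldt n - 1) * om V k X n| ≤ D / V := by
  sorry

end Pool.Agent.Helper16.HF
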